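import Pool.Agent.H523.AH.Stm2

set_option autoImplicit false

/-! # Project AH, task F1: a numerical inequality for mean squares -/

namespace Pool.Agent.H178.AH

open Finset Pool.Agent.H523.AH

theorem sum_Ioo_symm (f : ℤ → ℝ) (n : ℕ) :
    ∑ k ∈ Ioo (-((n + 1 : ℕ) : ℤ)) ((n + 1 : ℕ) : ℤ), f k
      = f 0 + ∑ m ∈ range n, (f ((m : ℤ) + 1) + f (-((m : ℤ) + 1))) := by
  induction n with
  | zero =>
    have h : Ioo (-((0 + 1 : ℕ) : ℤ)) ((0 + 1 : ℕ) : ℤ) = {0} := by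
      ext k
      simp only [mem_Ioo, mem_singleton]
      omega
    rw [h]
    simp
  | succ n ih =>
    have h : Ioo (-((n + 1 + 1 : ℕ) : ℤ)) ((n + 1 + 1 : ℕ) : ℤ)
        = insert ((n : ℤ) + 1) (insert (-((n : ℤ) + 1)) (Ioo (-((n + 1 : ℕ) : ℤ)) ((n + 1 : ℕ) : ℤ))) := by
      ext k
      simp only [mem_Ioo, mem_insert]
      omega
    rw [h, sum_insert, sum_insert, ih, sum_range_succ]
    · ring
    · simp only [mem_Ioo]
      omega
    · simp only [mem_Ioo, mem_insert]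
      omega

theorem sum_weights (h : ℕ) (hh : 1 ≤ h) :
    ∑ k ∈ Ioo (-(h : ℤ)) h, (1 - |(k : ℝ)| / h) = h := by
  obtain ⟨n, rfl⟩ : ∃ n, h = n + 1 := ⟨h - 1, by omega⟩
  rw [sum_Ioo_symm]
  have h1 : ∀ m : ℕ, (1 - |(((m : ℤ) + 1 : ℤ) : ℝ)| / ((n + 1 : ℕ) : ℝ)
      + (1 - |((-((m : ℤ) + 1) : ℤ) : ℝ)| / ((n + 1 : ℕ) : ℝ)))
      = 2 - 2 / ((n : ℝ) + 1) * ((m : ℝ) + 1) := by
    intro m
    have h2 : |(((m : ℤ) + 1 : ℤ) : ℝ)| = (m : ℝ) + 1 := by
      push_cast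
      exact abs_of_nonneg (by positivity)
    have h3 : |((-((m : ℤ) + 1) : ℤ) : ℝ)| = (m : ℝ) + 1 := by
      push_cast
      rw [abs_of_nonpos (by have : (0 : ℝ) ≤ m := Nat.cast_nonneg m; linarith)]
      ring
    rw [h2, h3]
    push_cast
    ring
  have h4 : ∀ N : ℕ, ∑ m ∈ range N, (2 - 2 / ((n : ℝ) + 1) * ((m : ℝ) + 1))
      = 2 * N - N * (N + 1) / ((n : ℝ) + 1) := by
    intro N
    induction N with
    | zero => simp
    | succ N ih =>
      rw [sum_range_succ, ih]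
      push_cast
      field_simp
      ring
  rw [sum_congr rfl fun m _ => h1 m, h4 n]
  have h5 : (n : ℝ) + 1 ≠ 0 := by positivity
  have h6 : (n : ℝ) * ((n : ℝ) + 1) / ((n : ℝ) + 1) = n := by field_simp
  rw [h6]
  push_cast
  simp
  ring

theorem main : S_F1 := by
  intro d m₀ h h₀ W D P hd hm hh hh0 hW hW0 hWm hD hyp
  have n1 : 10 * m₀ ≤ 7 * d := by omega
  have n2 : 7 * d < 10 * m₀ + 10 := by omega
  have n3 : 100 * h ≤ d := by omega
  have n4 : d < 100 * h + 100 := by omega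
  have n5 : 1000000 * h₀ ≤ d := by omega
  have n0 : 100000000 ≤ d := by omega
  have r0 : (100000000 : ℝ) ≤ d := by exact_mod_cast n0
  have r1 : (10 : ℝ) * m₀ ≤ 7 * d := by exact_mod_cast n1
  have r2 : (7 : ℝ) * d < 10 * m₀ + 10 := by exact_mod_cast n2
  have r3 : (100 : ℝ) * h ≤ d := by exact_mod_cast n3
  have r4 : (d : ℝ) < 100 * h + 100 := by exact_mod_cast n4
  have r5 : (1000000 : ℝ) * h₀ ≤ d := by exact_mod_cast n5
  have r6 : (0 : ℝ) ≤ h₀ := Nat.cast_nonneg _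
  have hh1 : 1 ≤ h := by omega
  have hpos : (0 : ℝ) < h := by exact_mod_cast hh1
  have hdpos : (0 : ℝ) < d := by linarith
  have hsum := sum_weights h hh1
  have hw0 : ∀ k ∈ Ioo (-(h : ℤ)) h, 0 ≤ 1 - |(k : ℝ)| / h := by
    intro k hk
    rw [mem_Ioo] at hk
    have h1 : (k : ℝ) ≤ h := by exact_mod_cast hk.2.le
    have h2 : -(h : ℝ) ≤ k := by exact_mod_cast hk.1.le
    have h3 : |(k : ℝ)| ≤ h := abs_le.2 ⟨h2, h1⟩
    have h4 : |(k : ℝ)| / h ≤ 1 := (div_le_one hpos).2 h3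
    linarith
  -- the left side
  have hleft : (288 / 1000 : ℝ) * d * h ≤ ∑ k ∈ Ioo (-(h : ℤ)) h, (1 - |(k : ℝ)| / h) *
      (W (2 * (d : ℤ) - m₀ - k).toNat - W ((m₀ : ℤ) + k).toNat) := by
    have h1 : (288 / 1000 : ℝ) * d * h
        = ∑ k ∈ Ioo (-(h : ℤ)) h, (1 - |(k : ℝ)| / h) * (288 / 1000 * d) := by
      rw [← sum_mul, hsum]
      ring
    rw [h1]
    refine sum_le_sum fun k hk => mul_le_mul_of_nonneg_left ?_ (hw0 k hk)
    rw [mem_Ioo] at hk
    have ha : ((2 * (d : ℤ) - m₀ - k).toNat : ℤ) = 2 * (d : ℤ) - m₀ - k :=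
      Int.toNat_of_nonneg (by omega)
    have hb : (((m₀ : ℤ) + k).toNat : ℤ) = (m₀ : ℤ) + k := Int.toNat_of_nonneg (by omega)
    have har : ((2 * (d : ℤ) - m₀ - k).toNat : ℝ) = 2 * d - m₀ - k := by
      exact_mod_cast congrArg (Int.cast : ℤ → ℝ) ha
    have hbr : (((m₀ : ℤ) + k).toNat : ℝ) = m₀ + k := by
      exact_mod_cast congrArg (Int.cast : ℤ → ℝ) hb
    have k1 : (k : ℝ) < h := by exact_mod_cast hk.2
    have k2 : -(h : ℝ) < k := by exact_mod_cast hk.1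
    have A := hWm (2 * (d : ℤ) - m₀ - k).toNat (by omega) (by rw [har]; linarith)
    have B := hWm ((m₀ : ℤ) + k).toNat (by omega) (by rw [hbr]; linarith)
    rw [har, min_eq_right (by linarith)] at A
    rw [hbr, min_eq_left (by linarith)] at B
    have A' := (abs_le.1 A).1
    have B' := (abs_le.1 B).2
    linarith
  -- values of `W` near zero
  have hWk : ∀ k ∈ Ioo (-((h + h₀ : ℕ) : ℤ)) ((h + h₀ : ℕ) : ℤ),
      W k.natAbs ≤ (if k = 0 then (d : ℝ) ^ 2 else 0) + 12 / 1000 * d := by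
    intro k hk
    rw [mem_Ioo] at hk
    by_cases h0 : k = 0
    · rw [if_pos h0, h0, Int.natAbs_zero]
      have : (0 : ℝ) ≤ 12 / 1000 * d := by positivity
      linarith
    · rw [if_neg h0, zero_add]
      have h1 : 1 ≤ k.natAbs := by omega
      have h2 : k.natAbs ≤ h + h₀ := by omega
      have h3 : (k.natAbs : ℝ) ≤ h + h₀ := by exact_mod_cast h2
      have A := (abs_le.1 (hWm k.natAbs h1 (by linarith))).2
      have B : min (k.natAbs : ℝ) d ≤ k.natAbs := min_le_left _ _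
      linarith
  have hsub : Ioo (-(h : ℤ)) h ⊆ Ioo (-((h + h₀ : ℕ) : ℤ)) ((h + h₀ : ℕ) : ℤ) := by
    intro k hk
    rw [mem_Ioo] at hk ⊢
    push_cast
    constructor <;> omega
  have hR1 : ∑ k ∈ Ioo (-(h : ℤ)) h, (1 - |(k : ℝ)| / h) * W k.natAbs
      ≤ (d : ℝ) ^ 2 + 12 / 1000 * d * h := by
    have h1 : ∀ k ∈ Ioo (-(h : ℤ)) h, (1 - |(k : ℝ)| / h) * W k.natAbs
        ≤ (if k = 0 then (d : ℝ) ^ 2 else 0) + (1 - |(k : ℝ)| / h) * (12 / 1000 * d) := by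
      intro k hk
      have h2 := mul_le_mul_of_nonneg_left (hWk k (hsub hk)) (hw0 k hk)
      refine h2.trans ?_
      rw [mul_add]
      refine add_le_add ?_ le_rfl
      by_cases h0 : k = 0
      · rw [h0]
        simp
      · rw [if_neg h0, mul_zero]
    refine (sum_le_sum h1).trans ?_
    rw [sum_add_distrib, ← sum_mul, hsum, sum_ite_eq']
    rw [if_pos (by rw [mem_Ioo]; constructor <;> omega)]
    linarith
  have hWsum : ∑ k ∈ Ioo (-((h + h₀ : ℕ) : ℤ)) ((h + h₀ : ℕ) : ℤ), W k.natAbs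
      ≤ (d : ℝ) ^ 2 + 2 * (h + h₀) * (12 / 1000 * d) := by
    refine (sum_le_sum hWk).trans ?_
    rw [sum_add_distrib, sum_ite_eq', sum_const, Int.card_Ioo, nsmul_eq_mul]
    rw [if_pos (by rw [mem_Ioo]; push_cast; constructor <;> omega)]
    refine add_le_add le_rfl (mul_le_mul_of_nonneg_right ?_ (by positivity))
    have h1 : ((((h + h₀ : ℕ) : ℤ) - -((h + h₀ : ℕ) : ℤ) - 1).toNat) ≤ 2 * (h + h₀) := by omega
    exact_mod_cast h1
  have hR2 : ∑ k ∈ Ioo (-((h + h₀ : ℕ) : ℤ)) ((h + h₀ : ℕ) : ℤ), D k * W k.natAbs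
      ≤ (h₀ : ℝ) / h * ((d : ℝ) ^ 2 + 2 * (h + h₀) * (12 / 1000 * d)) := by
    refine (sum_le_sum fun k _ => mul_le_mul_of_nonneg_right
      ((le_abs_self (D k)).trans (hD k)) (hW k.natAbs)).trans ?_
    rw [← mul_sum]
    exact mul_le_mul_of_nonneg_left hWsum (by positivity)
  -- numerics
  have hq : (h₀ : ℝ) / h ≤ 102 / 1000000 := by
    rw [div_le_iff₀ hpos]
    linarith
  have hpi := Real.pi_lt_d2
  have hpi0 := Real.pi_pos
  have hdh : (d : ℝ) ^ 2 ≤ 101 * (d * h) := by nlinarith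
  have hdh0 : (0 : ℝ) < d * h := by positivity
  have hh0h : (h₀ : ℝ) ≤ h := by linarith
  have hR2' : (h₀ : ℝ) / h * ((d : ℝ) ^ 2 + 2 * (h + h₀) * (12 / 1000 * d))
      ≤ 102 / 1000000 * (102 * (d * h)) := by
    refine mul_le_mul hq ?_ (by positivity) (by norm_num)
    have : (h₀ : ℝ) * d ≤ h * d := mul_le_mul_of_nonneg_right hh0h hdpos.le
    nlinarith
  have hR1' : 4 * Real.pi * (1 / 10000) *
      ∑ k ∈ Ioo (-(h : ℤ)) h, (1 - |(k : ℝ)| / h) * W k.natAbs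
      ≤ 4 * 3.15 * (1 / 10000) * (102 * (d * h)) := by
    refine mul_le_mul ?_ (hR1.trans ?_) ?_ (by norm_num)
    · linarith
    · nlinarith
    · exact sum_nonneg fun k hk => mul_nonneg (hw0 k hk) (hW _)
  have hfin : (h : ℝ) * (d / 20) ≤ h * P := by
    have h1 := hyp
    have h2 := hleft
    have h3 := hR2.trans hR2'
    norm_num at hR1' h3
    nlinarith
  exact le_of_mul_le_mul_left hfin hpos

end Pool.Agent.H178.AH
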